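import Pool.Agent.Helper65.AF.LP0
import Pool.Agent.Helper30.AF.BaseExp
import Pool.Agent.Helper33.AF.Conc
import Pool.Agent.Helper10.AF.Amp
import Pool.Agent.Helper4.AF.Meas

/-! # Project AF, block LP0 without hypotheses -/

set_option autoImplicit false
open MeasureTheory Real Set Filter Topology
open scoped ENNReal

namespace Pool.Agent.Helper65.AF

open Pool.Agent.Helper18.UC (nn LL sqo rep toT)
open Pool.Agent.Helper46.QP (TT Td)
open Pool.Agent.Helper82.AN (Ik Ow lawL wt bas eta Hw sq SepR)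
open Pool.Agent.Helper95.AF

variable {d : ℕ}

/-- **LP0**: base level, one parameter -/
theorem lev_prob0 {γ τ x : ℝ} (hd : 0 < d) (hγ : 0 < γ) (h1 : 1 / d ≤ τ) (h2 : τ * γ < x) (hx : x < 1) (G : ℝ) (hG : 1 ≤ G) :
    ∃ K : ℝ, ∀ n : ℕ, K ≤ n → ∀ D : ℝ, 0 < D → ∃ L₀ : ℝ, 1 ≤ L₀ ∧ ∀ L : ℝ, L₀ ≤ L →
      ∀ (k : ℕ) (e : Fin k → Td d → ℝ) (U : Fin (k + 1) → ℝ) (a : ℝ) (α : Td d) (y : ℝ), (∀ i, Continuous (e i)) →
        Real.exp L ≤ |a| → |a| ≤ Real.exp (L + 1) → Real.exp (-((L + 1) / 4000)) ≤ |U 0| → DC D τ α → -(et 0 / 2 * n * L) ≤ y →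
        lawL d {w | et 0 ≤ volume.real {θ : Td d | sq α (frc γ e U w) θ ∈ Ev0 a L n y}} ≤
          ENNReal.ofReal (Real.exp (-(G * n * L))) :=
  lev_prob0_of Pool.Agent.Helper30.AF.base_exp (fun hD _ _ hQ _ _ h κ => Pool.Agent.Helper33.AF.conc hD hQ h κ)
    (fun hd hγ h1 h2 D hD => Pool.Agent.Helper10.AF.amp_ok hd hγ h1 h2 D hD)
    (fun a n _ _ _ hc hδ => Pool.Agent.Helper4.AF.rr_meas a n hc hδ) hd hγ h1 h2 hx G hG

end Pool.Agent.Helper65.AF
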