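import Pool.Agent.Helper95.AF.Defs
import Pool.Agent.Helper82.AN.Eta

/-! # Project AF, block LP0: probability of the base level for one parameter -/

set_option autoImplicit false
open MeasureTheory Real Set Filter Topology
open scoped ENNReal

namespace Pool.Agent.Helper65.AF

open Pool.Agent.Helper18.UC (nn LL sqo rep toT)
open Pool.Agent.Helper46.QP (TT Td)
open Pool.Agent.Helper82.AN (Ik Ow lawL wt bas eta Hw sq SepR eta_meas)
open Pool.Agent.Helper95.AF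

variable {d : ℕ}

/-- the statement of `base_exp` -/
def BaseExp : Prop := ∃ C : ℝ, 1 ≤ C ∧ ∀ (d : ℕ) (γ : ℝ) (k : ℕ) (e : Fin k → Td d → ℝ) (U : Fin (k + 1) → ℝ) (α : Td d)
    (r₀ a ρ δ cap s y Q : ℝ) (n M N P : ℕ) (β : Fin M → Td d), 0 < γ → (∀ i, Continuous (e i)) → U 0 ≠ 0 →
    0 < r₀ → SepR α r₀ (n + 2) M β → 1 ≤ N → 1 ≤ P → 2 * ((M * (n + 2) : ℕ) : ℝ) ≤ (2 * N * r₀) ^ (2 * P) → 1 ≤ |a| →
    0 < ρ → ρ ≤ 1 → 0 < δ → 0 ≤ y → y ≤ cap → 0 ≤ Q → 0 < s → s ≤ 1 →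
    s ≤ |U 0| * Real.exp (-((P * N : ℝ) ^ γ)) / 20 →
    ∫⁻ w, ∏ l, (1 + ENNReal.ofReal Q *
      {b : ℕ → ℝ | rr a (n + 2) ρ δ cap b < y}.indicator 1 (sq α (frc γ e U w) (β l))) ∂lawL d ≤
      (ENNReal.ofReal (Real.exp (n + 1) * (1 + Q * (4 / (δ * ρ ^ 2)) * Real.exp (y / 4) * (C / s) *
        (C / (s * |a| ^ (1 / 4 : ℝ))) ^ n))) ^ M

/-- the statement of `conc` -/
def Conc (d : ℕ) : Prop := ∀ {D : Set (Ow d × Td d)} (_hD : MeasurableSet D) {M : ℕ} {Q : ℝ} (_hQ : 1 ≤ Q) {B : ℝ≥0∞} {β : Fin M → Td d}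
    (_h : ∀ θ : Td d, ∫⁻ w, ∏ l, (1 + ENNReal.ofReal Q * {w : Ow d | (w, θ + β l) ∈ D}.indicator 1 w) ∂lawL d ≤ B) (κ : ℝ),
    lawL d {w | κ ≤ volume.real {θ | (w, θ) ∈ D}} ≤ B * ENNReal.ofReal (Real.exp (-(M * κ * Real.log Q)))

/-- the statement of `amp_ok` -/
def AmpOk (d : ℕ) : Prop := ∀ {γ τ x : ℝ} (_hd : 0 < d) (_hγ : 0 < γ) (_h1 : 1 / d ≤ τ) (_h2 : τ * γ < x) (D : ℝ) (_hD : 0 < D),
    ∃ C : ℝ, 1 ≤ C ∧ ∀ (n M : ℕ) (α : Td d), 1 ≤ n → 1 ≤ M → (∀ j : ℕ, 1 ≤ j → D * (j : ℝ) ^ (-τ) ≤ ‖j • α‖) →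
      ∃ (r₀ : ℝ) (N P : ℕ) (β : Fin M → Td d), 0 < r₀ ∧ SepR α r₀ n M β ∧ 1 ≤ N ∧ 1 ≤ P ∧
        2 * ((M * n : ℕ) : ℝ) ≤ (2 * N * r₀) ^ (2 * P) ∧ ((P * N : ℝ)) ^ γ ≤ C * ((M * n : ℕ) : ℝ) ^ x

/-- the statement of `rr_meas` -/
def RrMeas : Prop := ∀ (a : ℝ) (n : ℕ) {ρ δ cap : ℝ} (_hc : 0 ≤ cap) (_hδ : 0 ≤ δ), Measurable (rr a n ρ δ cap)

theorem frc_meas (γ : ℝ) {k : ℕ} {e : Fin k → Td d → ℝ} (he : ∀ i, Continuous (e i)) (U : Fin (k + 1) → ℝ) :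
    Measurable fun p : Ow d × Td d => frc γ e U p.1 p.2 := by
  unfold frc
  refine Measurable.add ?_ ?_
  · refine Finset.measurable_sum _ fun i _ => ?_
    exact ((he i).measurable.comp measurable_snd).const_mul _
  · exact (eta_meas γ).const_mul _

theorem sq_meas (γ : ℝ) {k : ℕ} {e : Fin k → Td d → ℝ} (he : ∀ i, Continuous (e i)) (U : Fin (k + 1) → ℝ) (α : Td d) :
    Measurable fun p : Ow d × Td d => sq α (frc γ e U p.1) p.2 := by
  rw [measurable_pi_iff]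
  intro j
  show Measurable fun p : Ow d × Td d => frc γ e U p.1 (p.2 + j • α)
  exact (frc_meas γ he U).comp (measurable_fst.prodMk (measurable_snd.add_const _))

theorem sepR_add {α : Td d} {ρ : ℝ} {n M : ℕ} {β : Fin M → Td d} (h : SepR α ρ n M β) (θ : Td d) :
    SepR α ρ n M fun l => θ + β l := by
  intro x y hxy
  have h1 := h x y hxy
  show ρ ≤ dist (θ + β x.1 + (x.2 : ℕ) • α) (θ + β y.1 + (y.2 : ℕ) • α)
  rw [add_assoc, add_assoc, dist_add_left]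
  exact h1

/-- the numbers of the base level -/
theorem num0 {C E L a s : ℝ} {n : ℕ} (hC : 1 ≤ C) (hE : 0 ≤ E) (hn : 20000 ≤ n + 2) (hL : 1 ≤ L)
    (hL2 : 20000 * (1 / 4000 + E + Real.log (20 * C) + Real.log 4) ≤ L) (ha : Real.exp L ≤ |a|)
    (hs : s = Real.exp (-((L + 1) / 4000)) * Real.exp (-E) / 20) :
    Real.exp (((n + 2 : ℕ) : ℝ) * L / 10000) * (4 / (Real.exp (-(2 * (1 / 20000) * ((n + 2 : ℕ) : ℝ) * L)) *
      (Real.exp (-(1 / 20000 * ((n + 2 : ℕ) : ℝ) * L))) ^ 2)) * Real.exp ((1 - 1 / 400) * ((n + 2 : ℕ) : ℝ) * L / 4) * (C / s) *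
      (C / (s * |a| ^ (1 / 4 : ℝ))) ^ n ≤ 1 := by
  obtain ⟨m, hm⟩ : ∃ m : ℝ, m = ((n + 2 : ℕ) : ℝ) := ⟨_, rfl⟩
  have hm2 : (20000 : ℝ) ≤ m := by rw [hm]; exact_mod_cast hn
  have hnm : (n : ℝ) = m - 2 := by rw [hm]; push_cast; ring
  rw [← hm]
  have hs0 : 0 < s := by rw [hs]; positivity
  obtain ⟨F, hF⟩ : ∃ F : ℝ, F = Real.log (20 * C) := ⟨_, rfl⟩
  have hF0 : 0 ≤ F := by rw [hF]; exact Real.log_nonneg (by linarith)
  have hCF : 20 * C = Real.exp F := by rw [hF, Real.exp_log (by linarith)]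
  have hCs : C / s = Real.exp (F + (L + 1) / 4000 + E) := by
    rw [hs, Real.exp_add, Real.exp_add, ← hCF, Real.exp_neg, Real.exp_neg]
    field_simp
  have ha4 : Real.exp (L / 4) ≤ |a| ^ (1 / 4 : ℝ) := by
    calc Real.exp (L / 4) = Real.exp L ^ (1 / 4 : ℝ) := by rw [← Real.exp_mul]; congr 1; ring
      _ ≤ |a| ^ (1 / 4 : ℝ) := Real.rpow_le_rpow (Real.exp_pos _).le ha (by norm_num)
  have hCsa : C / (s * |a| ^ (1 / 4 : ℝ)) ≤ Real.exp (F + (L + 1) / 4000 + E - L / 4) := by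
    have h1 : C / (s * |a| ^ (1 / 4 : ℝ)) = C / s / |a| ^ (1 / 4 : ℝ) := by rw [div_div]
    rw [h1, hCs, Real.exp_sub]
    exact div_le_div_of_nonneg_left (Real.exp_pos _).le (Real.exp_pos _) ha4
  have hpow : (C / (s * |a| ^ (1 / 4 : ℝ))) ^ n ≤ Real.exp ((m - 2) * (F + (L + 1) / 4000 + E - L / 4)) := by
    have h0 : 0 ≤ C / (s * |a| ^ (1 / 4 : ℝ)) := by positivity
    calc (C / (s * |a| ^ (1 / 4 : ℝ))) ^ n ≤ (Real.exp (F + (L + 1) / 4000 + E - L / 4)) ^ n := pow_le_pow_left₀ h0 hCsa n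
      _ = _ := by rw [← Real.exp_nat_mul, hnm]
  have h4 : (4 : ℝ) = Real.exp (Real.log 4) := (Real.exp_log (by norm_num)).symm
  have hfrac : 4 / (Real.exp (-(2 * (1 / 20000) * m * L)) * (Real.exp (-(1 / 20000 * m * L))) ^ 2) =
      Real.exp (Real.log 4 + m * L / 5000) := by
    rw [Real.exp_add, ← h4, ← Real.exp_nat_mul, ← Real.exp_add, div_eq_mul_inv, ← Real.exp_neg]
    congr 2
    push_cast
    ring
  rw [hfrac, hCs]
  have hlog4 : 0 ≤ Real.log 4 := Real.log_nonneg (by norm_num)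
  calc Real.exp (m * L / 10000) * Real.exp (Real.log 4 + m * L / 5000) * Real.exp ((1 - 1 / 400) * m * L / 4) *
        Real.exp (F + (L + 1) / 4000 + E) * (C / (s * |a| ^ (1 / 4 : ℝ))) ^ n
      ≤ Real.exp (m * L / 10000) * Real.exp (Real.log 4 + m * L / 5000) * Real.exp ((1 - 1 / 400) * m * L / 4) *
        Real.exp (F + (L + 1) / 4000 + E) * Real.exp ((m - 2) * (F + (L + 1) / 4000 + E - L / 4)) :=
        mul_le_mul_of_nonneg_left hpow (by positivity)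
    _ = Real.exp (m * L / 10000 + (Real.log 4 + m * L / 5000) + (1 - 1 / 400) * m * L / 4 + (F + (L + 1) / 4000 + E) +
        (m - 2) * (F + (L + 1) / 4000 + E - L / 4)) := by
        rw [← Real.exp_add, ← Real.exp_add, ← Real.exp_add, ← Real.exp_add]
    _ ≤ 1 := by
        rw [Real.exp_le_one_iff]
        rw [← hF] at hL2
        obtain ⟨Z, hZ⟩ : ∃ Z : ℝ, Z = 1 / 4000 + E + F + Real.log 4 := ⟨_, rfl⟩
        have hZL : 20000 * Z ≤ L := by rw [hZ]; exact hL2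
        have hmZ : m * (20000 * Z) ≤ m * L := mul_le_mul_of_nonneg_left hZL (by linarith)
        have hmL : 20000 * L ≤ m * L := mul_le_mul_of_nonneg_right hm2 (by linarith)
        have hmF : F + E + (L + 1) / 4000 ≤ F + E + (L + 1) / 4000 := le_rfl
        have h1 : m * L / 10000 + (Real.log 4 + m * L / 5000) + (1 - 1 / 400) * m * L / 4 + (F + (L + 1) / 4000 + E) +
            (m - 2) * (F + (L + 1) / 4000 + E - L / 4) =
            -(3 / 40000) * (m * L) + L / 2 + Real.log 4 + m * (1 / 4000 + E + F) - (F + (L + 1) / 4000 + E) := by ring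
        rw [h1]
        have h2 : m * (1 / 4000 + E + F) + Real.log 4 ≤ m * Z := by
          rw [hZ]
          have : Real.log 4 ≤ m * Real.log 4 := le_mul_of_one_le_left hlog4 (by linarith)
          linarith
        have h3 : 0 ≤ F + (L + 1) / 4000 + E := by positivity
        linarith

theorem lev_prob0_of (hbase : BaseExp) (hconc : Conc d) (hamp : AmpOk d) (hrr : RrMeas)
    {γ τ x : ℝ} (hd : 0 < d) (hγ : 0 < γ) (h1 : 1 / d ≤ τ) (h2 : τ * γ < x) (_hx : x < 1) (G : ℝ) (hG : 1 ≤ G) :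
    ∃ K : ℝ, ∀ n : ℕ, K ≤ n → ∀ D : ℝ, 0 < D → ∃ L₀ : ℝ, 1 ≤ L₀ ∧ ∀ L : ℝ, L₀ ≤ L →
      ∀ (k : ℕ) (e : Fin k → Td d → ℝ) (U : Fin (k + 1) → ℝ) (a : ℝ) (α : Td d) (y : ℝ), (∀ i, Continuous (e i)) →
        Real.exp L ≤ |a| → |a| ≤ Real.exp (L + 1) → Real.exp (-((L + 1) / 4000)) ≤ |U 0| → DC D τ α → -(et 0 / 2 * n * L) ≤ y →
        lawL d {w | et 0 ≤ volume.real {θ : Td d | sq α (frc γ e U w) θ ∈ Ev0 a L n y}} ≤
          ENNReal.ofReal (Real.exp (-(G * n * L))) := by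
  obtain ⟨C, hC, Hb⟩ := hbase
  refine ⟨20000, fun n' hn' D hD => ?_⟩
  have hn2 : 2 ≤ n' := by
    have : (2 : ℝ) ≤ n' := by linarith
    exact_mod_cast this
  obtain ⟨n, rfl⟩ : ∃ n : ℕ, n' = n + 2 := ⟨n' - 2, by omega⟩
  have hn : 20000 ≤ n + 2 := by exact_mod_cast hn'
  obtain ⟨C₁, hC₁, Ha⟩ := hamp hd hγ h1 h2 D hD
  obtain ⟨M, hM⟩ : ∃ M : ℕ, M = ⌈10000000 * G⌉₊ := ⟨_, rfl⟩
  have hMG : 10000000 * G ≤ M := by rw [hM]; exact Nat.le_ceil _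
  have hM1 : 1 ≤ M := by
    have : (1 : ℝ) ≤ M := by linarith
    exact_mod_cast this
  obtain ⟨E, hE⟩ : ∃ E : ℝ, E = C₁ * ((M * (n + 2) : ℕ) : ℝ) ^ x := ⟨_, rfl⟩
  have hE0 : 0 ≤ E := by rw [hE]; positivity
  refine ⟨max 4000000 (20000 * (1 / 4000 + E + Real.log (20 * C) + Real.log 4)), le_trans (by norm_num) (le_max_left _ _), ?_⟩
  intro L hL k e U a α y he ha1 _ha2 hU hα hy
  have hL6 : 4000000 ≤ L := (le_max_left _ _).trans hL
  have hLE : 20000 * (1 / 4000 + E + Real.log (20 * C) + Real.log 4) ≤ L := (le_max_right _ _).trans hL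
  have hL1 : 1 ≤ L := by linarith
  obtain ⟨r₀, N, P, β, hr₀, hsep, hN, hP, hint, hPN⟩ := Ha (n + 2) M α (by omega) hM1 hα
  rw [← hE] at hPN
  obtain ⟨m, hm⟩ : ∃ m : ℝ, m = ((n + 2 : ℕ) : ℝ) := ⟨_, rfl⟩
  have hm0 : (20000 : ℝ) ≤ m := by rw [hm]; exact_mod_cast hn
  have hmL : 0 < m * L := by positivity
  obtain ⟨ρ, hρ⟩ : ∃ ρ : ℝ, ρ = Real.exp (-(1 / 20000 * m * L)) := ⟨_, rfl⟩
  obtain ⟨δ, hδ⟩ : ∃ δ : ℝ, δ = Real.exp (-(2 * (1 / 20000) * m * L)) := ⟨_, rfl⟩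
  obtain ⟨Y, hY⟩ : ∃ Y : ℝ, Y = (1 - 1 / 400) * m * L := ⟨_, rfl⟩
  obtain ⟨Q, hQ⟩ : ∃ Q : ℝ, Q = Real.exp (m * L / 10000) := ⟨_, rfl⟩
  obtain ⟨s, hs⟩ : ∃ s : ℝ, s = Real.exp (-((L + 1) / 4000)) * Real.exp (-E) / 20 := ⟨_, rfl⟩
  have hρ0 : 0 < ρ := by rw [hρ]; exact Real.exp_pos _
  have hρ1 : ρ ≤ 1 := by
    rw [hρ, Real.exp_le_one_iff]
    linarith
  have hδ0 : 0 < δ := by rw [hδ]; exact Real.exp_pos _
  have hY0 : 0 ≤ Y := by rw [hY]; linarith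
  have hYc : Y ≤ 2 * m * L := by rw [hY]; linarith
  have h2mL : 0 ≤ 2 * m * L := hY0.trans hYc
  have hQ1 : 1 ≤ Q := by
    rw [hQ]
    exact Real.one_le_exp (by positivity)
  have hs0 : 0 < s := by rw [hs]; positivity
  have hs1 : s ≤ 1 := by
    have q1 : Real.exp (-((L + 1) / 4000)) ≤ 1 := by
      rw [Real.exp_le_one_iff]
      have : 0 ≤ (L + 1) / 4000 := by positivity
      linarith
    have q2 : Real.exp (-E) ≤ 1 := by
      rw [Real.exp_le_one_iff]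
      linarith
    have q3 := mul_le_one₀ q1 (Real.exp_pos (-E)).le q2
    rw [hs]
    linarith
  have hsU : s ≤ |U 0| * Real.exp (-((P * N : ℝ) ^ γ)) / 20 := by
    rw [hs]
    have q2 : Real.exp (-E) ≤ Real.exp (-((P * N : ℝ) ^ γ)) := Real.exp_le_exp.2 (by linarith)
    have q3 := mul_le_mul hU q2 (Real.exp_pos _).le (abs_nonneg (U 0))
    linarith
  have hU0 : U 0 ≠ 0 := by
    intro h0
    rw [h0, abs_zero] at hU
    exact absurd hU (not_le.2 (Real.exp_pos _))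
  have ha0 : 1 ≤ |a| := (Real.one_le_exp (by linarith)).trans ha1
  -- the exceptional set
  obtain ⟨Dd, hDd⟩ : ∃ Dd : Set (Ow d × Td d), Dd = {p | rr a (n + 2) ρ δ (2 * m * L) (sq α (frc γ e U p.1) p.2) < Y} := ⟨_, rfl⟩
  have hDm : MeasurableSet Dd := by
    rw [hDd]
    exact measurableSet_lt ((hrr a (n + 2) h2mL hδ0.le).comp (sq_meas γ he U α)) measurable_const
  have hexp : ∀ θ : Td d, ∫⁻ w, ∏ l, (1 + ENNReal.ofReal Q * {w : Ow d | (w, θ + β l) ∈ Dd}.indicator 1 w) ∂lawL d ≤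
      ENNReal.ofReal (Real.exp (M * m)) := by
    intro θ
    have q1 := Hb d γ k e U α r₀ a ρ δ (2 * m * L) s Y Q n M N P (fun l => θ + β l) hγ he hU0 hr₀ (sepR_add hsep θ) hN hP hint ha0
      hρ0 hρ1 hδ0 hY0 hYc (by linarith) hs0 hs1 hsU
    have q2 : ∀ w : Ow d, ∏ l, (1 + ENNReal.ofReal Q * {w : Ow d | (w, θ + β l) ∈ Dd}.indicator 1 w) =
        ∏ l, (1 + ENNReal.ofReal Q * {b : ℕ → ℝ | rr a (n + 2) ρ δ (2 * m * L) b < Y}.indicator 1 (sq α (frc γ e U w) (θ + β l))) := by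
      intro w
      refine Finset.prod_congr rfl fun l _ => ?_
      congr 2
      rw [hDd]
      simp only [Set.indicator, Set.mem_ofPred_eq, Pi.one_apply]
    simp_rw [q2]
    refine q1.trans ?_
    have q3 := num0 (a := a) hC hE0 hn hL1 hLE ha1 hs
    rw [← hm, ← hρ, ← hδ, ← hY, ← hQ] at q3
    have q4 : Real.exp (n + 1) * (1 + Q * (4 / (δ * ρ ^ 2)) * Real.exp (Y / 4) * (C / s) *
        (C / (s * |a| ^ (1 / 4 : ℝ))) ^ n) ≤ Real.exp m := by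
      have q5 : Real.exp m = Real.exp (n + 1) * Real.exp 1 := by
        rw [← Real.exp_add, hm]
        congr 1
        push_cast
        ring
      rw [q5]
      refine mul_le_mul_of_nonneg_left ?_ (Real.exp_pos _).le
      have := Real.exp_one_gt_d9
      linarith
    calc _ ≤ (ENNReal.ofReal (Real.exp m)) ^ M := pow_le_pow_left' (ENNReal.ofReal_le_ofReal q4) M
      _ = ENNReal.ofReal (Real.exp (M * m)) := by
        rw [← ENNReal.ofReal_pow (Real.exp_pos _).le, ← Real.exp_nat_mul]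
  have hfin := hconc hDm hQ1 hexp (et 0)
  have hsub : {w | et 0 ≤ volume.real {θ : Td d | sq α (frc γ e U w) θ ∈ Ev0 a L (n + 2) y}} ⊆
      {w | et 0 ≤ volume.real {θ | (w, θ) ∈ Dd}} := by
    intro w hw
    refine le_trans hw (measureReal_mono ?_ (measure_ne_top _ _))
    intro θ hθ
    rw [hDd]
    show rr a (n + 2) ρ δ (2 * m * L) (sq α (frc γ e U w) θ) < Y
    have q1 : Rl a L 0 (n + 2) (sq α (frc γ e U w) θ) < (1 - et 0) * (n + 2 : ℕ) * L - y := hθ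
    unfold Rl at q1
    have q2 : pp 0 = 1 / 20000 := rfl
    have q3 : et 0 = 1 / 200 := by unfold et; norm_num
    rw [q2, q3, ← hm] at q1
    rw [q3, ← hm] at hy
    have q4 : 2 * (1 / 20000 : ℝ) * m * L = 2 * (1 / 20000) * m * L := rfl
    rw [← hρ, ← hδ] at q1
    refine q1.trans_le ?_
    rw [hY]
    linarith
  refine (measure_mono hsub).trans (hfin.trans ?_)
  rw [← ENNReal.ofReal_mul (Real.exp_pos _).le, ← Real.exp_add]
  refine ENNReal.ofReal_le_ofReal (Real.exp_le_exp.2 ?_)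
  have q3 : et 0 = 1 / 200 := by unfold et; norm_num
  rw [q3, hQ, Real.log_exp, ← hm]
  have q5 : (M : ℝ) * m * 4000000 ≤ M * m * L := mul_le_mul_of_nonneg_left hL6 (by positivity)
  have q6 : 10000000 * G * (m * L) ≤ M * (m * L) := mul_le_mul_of_nonneg_right hMG hmL.le
  have q7 : 0 ≤ G * (m * L) := by positivity
  have q8 : M * m + -(M * (1 / 200) * (m * L / 10000)) = M * m - M * (m * L) / 2000000 := by ring
  rw [q8, mul_assoc G]
  have q9 : (M : ℝ) * (m * L) = M * m * L := by ring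
  linarith

end Pool.Agent.Helper65.AF
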